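import Pool.Agent.Lib.MP_1fa985_ag.Mult
import Pool.Agent.Lib.MP_1fa985_ag.Rational

set_option autoImplicit false

namespace Pool.Agent.Results.MP_1fa985_ag.NoFibreComponent

open MvPolynomial

/-- The rational function field of the affine plane over the complex numbers. -/
abbrev PlaneField : Type := FractionRing (MvPolynomial (Fin 2) ℂ)

/-- A polynomial seen as a rational function. -/
noncomputable def toField (f : MvPolynomial (Fin 2) ℂ) : PlaneField :=
  algebraMap (MvPolynomial (Fin 2) ℂ) PlaneField f

/-- Field generator: some rational function together with `f` generates the function field of the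
plane over the complex numbers. -/
def IsFieldGenerator (f : MvPolynomial (Fin 2) ℂ) : Prop :=
  ∃ g : PlaneField, IntermediateField.adjoin ℂ ({toField f, g} : Set PlaneField) = ⊤

/-- Generically rational polynomial: the function field of the plane is a field of rational
functions in one variable over the subfield generated by `f`. -/
def IsGenericallyRational (f : MvPolynomial (Fin 2) ℂ) : Prop :=
  Nonempty (PlaneField ≃ₐ[IntermediateField.adjoin ℂ ({toField f} : Set PlaneField)]
    RatFunc (IntermediateField.adjoin ℂ ({toField f} : Set PlaneField)))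

/-- The curve `p = 0` is nonsingular: at each of its points a partial derivative is nonzero. -/
def IsSmoothCurve (p : MvPolynomial (Fin 2) ℂ) : Prop :=
  ∀ a b : ℂ, eval ![a, b] p = 0 →
    eval ![a, b] (pderiv 0 p) ≠ 0 ∨ eval ![a, b] (pderiv 1 p) ≠ 0

/-- The function field of the curve `p = 0` is isomorphic to the field of rational functions in
one variable over the complex numbers. -/
def IsRationalCurve (p : MvPolynomial (Fin 2) ℂ) : Prop :=
  Nonempty (FractionRing (MvPolynomial (Fin 2) ℂ ⧸ Ideal.span {p}) ≃ₐ[ℂ] RatFunc ℂ)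

theorem isFieldGenerator_of_isGenericallyRational (f : MvPolynomial (Fin 2) ℂ)
    (hf : IsGenericallyRational f) : IsFieldGenerator f := by
  obtain ⟨e⟩ := hf
  refine ⟨e.symm RatFunc.X, ?_⟩
  have h1 : IntermediateField.adjoin (IntermediateField.adjoin ℂ ({toField f} : Set PlaneField))
      ({e.symm RatFunc.X} : Set PlaneField) = ⊤ := by
    have h2 : (IntermediateField.adjoin (IntermediateField.adjoin ℂ ({toField f} : Set PlaneField))
        ({RatFunc.X} : Set (RatFunc (IntermediateField.adjoin ℂ
          ({toField f} : Set PlaneField))))).map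
        (e.symm : RatFunc (IntermediateField.adjoin ℂ ({toField f} : Set PlaneField))
          →ₐ[IntermediateField.adjoin ℂ ({toField f} : Set PlaneField)] PlaneField) =
        IntermediateField.adjoin (IntermediateField.adjoin ℂ ({toField f} : Set PlaneField))
          ({e.symm RatFunc.X} : Set PlaneField) := by
      rw [IntermediateField.adjoin_map, Set.image_singleton]
      rfl
    rw [← h2, RatFunc.adjoin_X]
    rw [eq_top_iff]
    intro x _
    exact ⟨e x, trivial, e.symm_apply_apply x⟩
  have h3 := IntermediateField.adjoin_adjoin_left ℂ ({toField f} : Set PlaneField)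
    ({e.symm RatFunc.X} : Set PlaneField)
  rw [Set.singleton_union] at h3
  rw [← h3, eq_top_iff]
  intro x _
  have hx : x ∈ IntermediateField.adjoin
      (IntermediateField.adjoin ℂ ({toField f} : Set PlaneField))
      ({e.symm RatFunc.X} : Set PlaneField) := by
    rw [h1]; trivial
  exact hx

theorem not_isFieldGenerator (q : MvPolynomial (Fin 2) ℂ) (c : ℂ) :
    ¬ IsFieldGenerator (Pool.Agent.Lib.MP_1fa985_ag.pp * q + C c) := by
  rintro ⟨g, hg⟩
  apply Pool.Agent.Lib.MP_1fa985_ag.not_fieldGenerator_mul q g
  rw [eq_top_iff, ← hg, IntermediateField.adjoin_le_iff]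
  rintro y (rfl | rfl)
  · unfold toField
    rw [map_add]
    refine add_mem (IntermediateField.subset_adjoin ℂ _ (Or.inl rfl)) ?_
    have : algebraMap (MvPolynomial (Fin 2) ℂ) PlaneField (C c) = algebraMap ℂ PlaneField c := by
      rw [← MvPolynomial.algebraMap_eq, ← IsScalarTower.algebraMap_apply]
    rw [this]
    exact IntermediateField.algebraMap_mem _ c
  · exact IntermediateField.subset_adjoin ℂ _ (Or.inr rfl)

/-- The quartic `p = (xy - 1)^2 - y^4 + y^3` defines a smooth irreducible rational plane curve
which is not a component of a fibre `f = c` of any field generator `f`; in particular it is not a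
factor of a field generator. -/
theorem result :
    ∃ p : MvPolynomial (Fin 2) ℂ,
      p = (X 0 * X 1 - 1) ^ 2 - X 1 ^ 4 + X 1 ^ 3 ∧
      Irreducible p ∧ IsSmoothCurve p ∧ IsRationalCurve p ∧
      (∀ (f : MvPolynomial (Fin 2) ℂ) (c : ℂ),
        IsFieldGenerator f ∨ IsGenericallyRational f → ¬ p ∣ f - C c) ∧
      (∀ q : MvPolynomial (Fin 2) ℂ,
        ¬ IsFieldGenerator (p * q) ∧ ¬ IsGenericallyRational (p * q)) := by
  have key : ∀ (f : MvPolynomial (Fin 2) ℂ) (c : ℂ),
      IsFieldGenerator f ∨ IsGenericallyRational f →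
        ¬ Pool.Agent.Lib.MP_1fa985_ag.pp ∣ f - C c := by
    rintro f c hf ⟨q, hq⟩
    have hf' : IsFieldGenerator f := hf.elim id (isFieldGenerator_of_isGenericallyRational f)
    have h : f = Pool.Agent.Lib.MP_1fa985_ag.pp * q + C c := by
      rw [← hq]; ring
    rw [h] at hf'
    exact not_isFieldGenerator q c hf'
  refine ⟨Pool.Agent.Lib.MP_1fa985_ag.pp, rfl, Pool.Agent.Lib.MP_1fa985_ag.irreducible_pp,
    fun a b h => Pool.Agent.Lib.MP_1fa985_ag.smooth_pp ![a, b] h,
    Pool.Agent.Lib.MP_1fa985_ag.rational_pp, key, fun q => ?_⟩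
  have hdvd : Pool.Agent.Lib.MP_1fa985_ag.pp ∣ Pool.Agent.Lib.MP_1fa985_ag.pp * q - C 0 := by
    rw [C_0, sub_zero]; exact dvd_mul_right _ _
  exact ⟨fun h => key _ 0 (Or.inl h) hdvd, fun h => key _ 0 (Or.inr h) hdvd⟩

end Pool.Agent.Results.MP_1fa985_ag.NoFibreComponent
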